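import Mathlib
import Pool.Agent.TH881.RG.R2

/-! Even numbers as differences of two primes after the deletion of a small proportion of the primes. -/

set_option autoImplicit false

namespace Pool.Agent.Results.MP_70e905_nt.DifferencesAfterDeletion
open Finset Filter

open Classical in
/-- The number of elements of `S` in `[1, x]`. -/
noncomputable def count (S : Set ℕ) (x : ℕ) : ℕ := ((Icc 1 x).filter (fun n => n ∈ S)).card

/-- The upper asymptotic density. -/
noncomputable def upperDensity (S : Set ℕ) : ℝ := limsup (fun x : ℕ => (count S x : ℝ) / x) atTop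

/-- The lower asymptotic density. -/
noncomputable def lowerDensity (S : Set ℕ) : ℝ := liminf (fun x : ℕ => (count S x : ℝ) / x) atTop

/-- The lower density, relative to the set of all primes, of the set of the primes in `A`. -/
noncomputable def relLower (A : Set ℕ) : ℝ :=
  liminf (fun x : ℕ => (count {p | p.Prime ∧ p ∈ A} x : ℝ) / (count {p | p.Prime} x : ℝ)) atTop

/-- The even numbers which are not differences of two primes of `A` (of any size). -/
def notDifference (A : Set ℕ) : Set ℕ :=
  {n | Even n ∧ ¬ ∃ p q : ℕ, (p.Prime ∧ p ∈ A) ∧ (q.Prime ∧ q ∈ A) ∧ p = q + n}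

/-- The twin prime constant `∏ (1 - 1 / (p - 1) ^ 2)`, `p > 2` prime. -/
noncomputable def C₂ : ℝ := ⨅ z : ℕ, ∏ p ∈ (Icc 3 z).filter Nat.Prime, (1 - 1 / ((p : ℝ) - 1) ^ 2)

/-- Let `δ > 0` and let `η > 0` be small. If `A` is a set of primes of relative lower density at
least `1 - η`, then every even number outside a set of upper density at most
`exp (-exp ((2 C₂ e ^ (-γ) - δ) / η))` is a difference of two primes of `A`; and for some such `A`
the set of the even numbers which are not differences of two primes of `A` has lower density at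
least `exp (-exp ((2 C₂ e ^ (-γ) + δ) / η))`. -/
theorem result (δ : ℝ) (hδ : 0 < δ) :
    ∃ η₀ : ℝ, 0 < η₀ ∧ ∀ η : ℝ, 0 < η → η ≤ η₀ →
    (∀ A : Set ℕ, 1 - η ≤ relLower A → upperDensity (notDifference A) ≤
      Real.exp (-Real.exp ((2 * (C₂ * Real.exp (-Real.eulerMascheroniConstant)) - δ) / η))) ∧
    ∃ A : Set ℕ, 1 - η ≤ relLower A ∧
      Real.exp (-Real.exp ((2 * (C₂ * Real.exp (-Real.eulerMascheroniConstant)) + δ) / η)) ≤
        lowerDensity (notDifference A) :=
  Pool.Agent.TH881.RG.differences δ hδ

end Pool.Agent.Results.MP_70e905_nt.DifferencesAfterDeletion
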