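import Mathlib
import Pool.Agent.TH880.GPf
import Pool.Agent.W25.UB.Final

/-! Either Goldbach numbers with many partitions have bounded gaps, or all even numbers outside a
very thin set are differences of two primes in many ways (helper880). -/

set_option autoImplicit false

namespace Pool.Agent.Results.MP_70e905_nt.GoldbachOrPolignac

open Filter
open Pool.Agent.TH880.GP

open Classical in
/-- At least one of the following holds.
(i) There is `C` such that for every `η > 0` and every large `x` some even `m` in `[x, x + C]` is the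
sum of two primes in at least `m ^ (1 - η)` ways.
(ii) There is `K` such that, for all finite sets `X`, `Y` of integers with at least `K` members and
with positive sums, some sum `x + y` has `Pol (x + y)`, and in each window `(u, u + L]` all `k`
except at most `8 K L ^ (1 - 1 / K)` have `Pol k`. Here `Pol k` says that for every `η > 0` there
are arbitrarily large `x` such that `p` and `p + 2 k` are primes for at least `x ^ (1 - η)` of the
`p ≤ x`. -/
theorem result :
    (∃ C : ℕ, ∀ η : ℝ, 0 < η → ∀ᶠ x : ℕ in atTop, ∃ m : ℕ, x ≤ m ∧ m ≤ x + C ∧ Even m ∧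
      (m : ℝ) ^ (1 - η) ≤ sumCount m) ∨
    (∃ K : ℕ, 1 ≤ K ∧
      (∀ X Y : Finset ℤ, K ≤ X.card → K ≤ Y.card → (∀ x ∈ X, ∀ y ∈ Y, 0 < x + y) →
        ∃ x ∈ X, ∃ y ∈ Y, Pol (x + y).toNat) ∧
      ∀ u L : ℕ, 1 ≤ L → (((Finset.Ioc u (u + L)).filter (fun k => ¬ Pol k)).card : ℝ) ≤
        8 * K * (L : ℝ) ^ (1 - 1 / (K : ℝ))) :=
  goldbach_or_polignac Pool.Agent.W25.UB.thmV

end Pool.Agent.Results.MP_70e905_nt.GoldbachOrPolignac
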