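import Pool.Agent.TH894.PR4

/-!
# Almost all even members of the Hamming spheres around an arbitrary large integer are differences of two
primes

Definition used from `Pool.Agent.H560R3.GB`: `sing n`: the singular series
`2 C₂ ∏_{p ∣ n, p > 2} (p - 1) / (p - 2)`, where `C₂ = ∏_{p > 2} (1 - 1 / (p - 1) ^ 2)` is the twin prime
constant.
-/

set_option autoImplicit false

namespace Pool.Agent.Results.MP_70e905_nt.HammingSpheres

open Finset Pool.Agent.H560R3.GB

/-- The number of primes `q` with `y₁ < q ≤ y₂` and `q ≡ r (mod k)` for which `q + n` is a prime, that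
is, the number of representations `n = p - q` with primes `p` and `q`, where `q` is restricted to
`(y₁, y₂]` and to the class `r` modulo `k`. -/
noncomputable def diffs (n k r y₁ y₂ : ℕ) : ℕ :=
  Nat.card {q : ℕ // q.Prime ∧ (q + n).Prime ∧ y₁ < q ∧ q ≤ y₂ ∧ q ≡ r [MOD k]}

/-- The number of classes `α` modulo `k` for which `α` and `α + n` are both prime to `k`. -/
def classes (k n : ℕ) : ℕ := ((range k).filter (fun α => Nat.Coprime α k ∧ Nat.Coprime (α + n) k)).card

/-- The predicted number of representations (for windows near `N`). -/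
noncomputable def pred (N n k y₁ y₂ : ℕ) : ℝ :=
  sing n * ((y₂ : ℝ) - y₁) / (classes k n * Real.log N ^ 2)

/-- For all moduli `1 ≤ k ≤ Q`, all classes `r` with `(r, k) = (r + n, k) = 1`, and all windows
`0 ≤ y₁ < q ≤ y₂ ≤ N` with `y₂ - y₁ ≥ ε N`, the number of representations of `n` as a
difference `p - q` of primes, `q` in the window and in the class, agrees with its prediction up to a
relative error of at most `ε`. -/
def Holds (ε : ℝ) (Q N n : ℕ) : Prop :=
  ∀ k r : ℕ, 1 ≤ k → k ≤ Q → Nat.Coprime r k → Nat.Coprime (r + n) k →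
    ∀ y₁ y₂ : ℕ, y₁ < y₂ → y₂ ≤ N → ε * N ≤ (y₂ : ℝ) - y₁ →
      |(diffs n k r y₁ y₂ : ℝ) - pred N n k y₁ y₂| ≤ ε * pred N n k y₁ y₂

/-- The digit number `i` (counted from the right, beginning with `0`) of `n` in base `b`. -/
def digit (b i n : ℕ) : ℕ := n / b ^ i % b

/-- The number of digits of `n ≥ 1` in base `b`. -/
def len (b n : ℕ) : ℕ := Nat.log b n + 1

open Classical in
/-- The numbers `n` (with at most as many digits as `N`) whose digits in base `b` differ from the digits of
`N` at exactly `r` positions, where the last digit is the same as that of `N` and every digit which differs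
from the digit of `N` belongs to the set `F i` of the admissible new digits at its position `i`. (If all
digits are admissible, then this is the Hamming sphere of radius `r` around `N` in the set of the numbers
which have the same last digit as `N`.) -/
noncomputable def sphere (b N : ℕ) (F : ℕ → Finset ℕ) (r : ℕ) : Finset ℕ :=
  (range (b ^ len b N)).filter (fun n =>
    (∀ i ∈ range (len b N), digit b i n ≠ digit b i N → i ∈ Ico 1 (len b N) ∧ digit b i n ∈ F i) ∧
    ((range (len b N)).filter (fun i => digit b i n ≠ digit b i N)).card = r)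

open Classical in
/-- The number of the positive even members of the sphere which do not satisfy `Holds`. -/
noncomputable def exceptions (ε : ℝ) (Q b N : ℕ) (F : ℕ → Finset ℕ) (r : ℕ) : ℕ :=
  ((sphere b N F r).filter (fun n => 0 < n ∧ Even n ∧ ¬ Holds ε Q N n)).card

open Pool.Agent.TH935.DF in
lemma diffs_eq (n k r y₁ y₂ : ℕ) : diffs n k r y₁ y₂ = cc k r n y₁ y₂ := by
  classical
  unfold diffs cc
  have e : Nat.card {q : ℕ // q.Prime ∧ (q + n).Prime ∧ y₁ < q ∧ q ≤ y₂ ∧ q ≡ r [MOD k]} =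
      Nat.card {q : ℕ // q ∈ (Ioc y₁ y₂).filter (fun p : ℕ => p.Prime ∧ (p + n).Prime ∧ p ≡ r [MOD k])} := by
    apply Nat.card_congr
    apply Equiv.subtypeEquivRight
    intro q
    rw [mem_filter, mem_Ioc]
    tauto
  rw [e, Nat.card_eq_fintype_card, Fintype.card_coe]

/-- from `b ^ K` to `N` -/
lemma holds_of (b : ℕ) (hb : 2 ≤ b) (ε : ℝ) (hε : 0 < ε) (Q : ℕ) : ∃ N₀ : ℕ, ∀ N : ℕ, N₀ ≤ N → ∀ n : ℕ,
    Pool.Agent.TH894.PR.HCe (min ε 1 / (4 * b)) Q (b ^ len b N) n → Holds ε Q N n := by
  have hbr : (2 : ℝ) ≤ b := by exact_mod_cast hb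
  have hb0 : (0 : ℝ) < b := by linarith
  have hlb : 0 < Real.log b := Real.log_pos (by linarith)
  obtain ⟨N₁, h1⟩ := Pool.Agent.H373R2.T7.ev_L' (16 * Real.log b / min ε 1 + 1)
  refine ⟨N₁ + 2, fun N hN n h k r hk hkQ hr hrn y₁ y₂ h12 hy2 hΔ => ?_⟩
  have hL := h1 N (by omega)
  obtain ⟨η, hη⟩ : ∃ η : ℝ, η = min ε 1 := ⟨_, rfl⟩
  have hη0 : 0 < η := by rw [hη]; exact lt_min hε (by norm_num)
  have hη1 : η ≤ 1 := by rw [hη]; exact min_le_right _ _
  have hηε : η ≤ ε := by rw [hη]; exact min_le_left _ _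
  rw [← hη] at h hL
  obtain ⟨L, hLd⟩ : ∃ L, L = Real.log (N : ℝ) := ⟨_, rfl⟩
  rw [← hLd] at hL
  have h16 : 0 < 16 * Real.log b / η := by positivity
  have hL1 : 1 ≤ L := by linarith
  have hL0 : 0 < L := by linarith
  have hN0 : N ≠ 0 := by omega
  have hNr : (0 : ℝ) < N := by exact_mod_cast Nat.pos_of_ne_zero hN0
  obtain ⟨X, hX⟩ : ∃ X, X = b ^ len b N := ⟨_, rfl⟩
  rw [← hX] at h
  have hNX : N < X := by rw [hX]; unfold len; exact Nat.lt_pow_succ_log_self (by omega) N
  have hXN : X ≤ b * N := by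
    rw [hX]
    unfold len
    rw [pow_succ']
    exact Nat.mul_le_mul_left _ (Nat.pow_log_le_self b hN0)
  have hXNr : (X : ℝ) ≤ b * N := by exact_mod_cast hXN
  have hNXr : (N : ℝ) ≤ X := by exact_mod_cast hNX.le
  have hX0 : (0 : ℝ) < X := by linarith
  obtain ⟨M, hMd⟩ : ∃ M, M = Real.log (X : ℝ) := ⟨_, rfl⟩
  have hLM : L ≤ M := by rw [hLd, hMd]; exact Real.log_le_log hNr hNXr
  have hML : M ≤ (1 + η / 16) * L := by
    have h2 : M ≤ Real.log (b * N) := by rw [hMd]; exact Real.log_le_log hX0 hXNr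
    rw [Real.log_mul hb0.ne' hNr.ne', ← hLd] at h2
    have h3 : 16 * Real.log b ≤ L * η := by
      have : 16 * Real.log b / η ≤ L := by linarith
      rwa [div_le_iff₀ hη0] at this
    linarith
  have hM0 : 0 < M := by linarith
  have hΔ2 : η / (4 * b) * X ≤ (y₂ : ℝ) - y₁ := by
    refine le_trans ?_ hΔ
    calc η / (4 * b) * X ≤ η / (4 * b) * (b * N) := mul_le_mul_of_nonneg_left hXNr (by positivity)
      _ = η / 4 * N := by field_simp
      _ ≤ ε * N := mul_le_mul_of_nonneg_right (by linarith) hNr.le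
  have key := h k r hk hkQ hr hrn y₁ y₂ h12 (hy2.trans hNX.le) hΔ2
  rw [← diffs_eq] at key
  have hs : 1 ≤ sing n := Pool.Agent.W93.GB.one_le_sing n
  have hc : (0 : ℝ) < Pool.Agent.W93.PP.Cnt k n := by
    exact_mod_cast Pool.Agent.TH894.PR.cnt_pos k r n hk hr hrn
  have hD : 0 < (y₂ : ℝ) - y₁ := lt_of_lt_of_le (by positivity) hΔ
  obtain ⟨P, hP⟩ : ∃ P : ℝ, P = sing n * ((y₂ : ℝ) - y₁) / Pool.Agent.W93.PP.Cnt k n := ⟨_, rfl⟩
  have hP0 : 0 < P := by rw [hP]; positivity
  have e1 : sing n * ((y₂ : ℝ) - y₁) / (Pool.Agent.W93.PP.Cnt k n * Real.log X ^ 2) = P / M ^ 2 := by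
    rw [hP, ← hMd, div_div]
  have e2 : pred N n k y₁ y₂ = P / L ^ 2 := by
    unfold pred
    rw [hP, ← hLd, div_div]
    rfl
  rw [e1] at key
  rw [e2]
  have f1 : P / M ^ 2 ≤ P / L ^ 2 := div_le_div_of_nonneg_left hP0.le (by positivity) (pow_le_pow_left₀ hL0.le hLM 2)
  have f2 : (1 - η / 4) * (P / L ^ 2) ≤ P / M ^ 2 := by
    rw [mul_div_assoc', div_le_div_iff₀ (by positivity) (by positivity)]
    have f3 : M ^ 2 ≤ ((1 + η / 16) * L) ^ 2 := pow_le_pow_left₀ hM0.le hML 2
    have f4 : (1 - η / 4) * (1 + η / 16) ^ 2 ≤ 1 := by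
      have e : (1 - η / 4) * (1 + η / 16) ^ 2 = 1 - η / 8 - 7 / 256 * (η * η) - 1 / 1024 * (η * η * η) := by ring
      have e3 : 0 ≤ η * η := by positivity
      have e4 : 0 ≤ η * η * η := by positivity
      rw [e]
      linarith
    have f5 : 0 ≤ (1 - η / 4) := by linarith
    calc (1 - η / 4) * P * M ^ 2 ≤ (1 - η / 4) * P * ((1 + η / 16) * L) ^ 2 :=
          mul_le_mul_of_nonneg_left f3 (by positivity)
      _ = ((1 - η / 4) * (1 + η / 16) ^ 2) * (P * L ^ 2) := by ring
      _ ≤ 1 * (P * L ^ 2) := mul_le_mul_of_nonneg_right f4 (by positivity)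
      _ = P * L ^ 2 := one_mul _
  have f6 : 0 < P / L ^ 2 := by positivity
  have f7 : η / (4 * b) * (P / M ^ 2) ≤ η / 4 * (P / L ^ 2) := by
    apply mul_le_mul _ f1 (by positivity) (by positivity)
    apply div_le_div_of_nonneg_left hη0.le (by norm_num)
    linarith
  have f8 : η * (P / L ^ 2) ≤ ε * (P / L ^ 2) := mul_le_mul_of_nonneg_right hηε f6.le
  rw [abs_le] at key ⊢
  constructor
  · nlinarith [key.1]
  · nlinarith [key.2]

/-- For every base `b ≥ 2` there is a `c > 0`, and for every `ε > 0` and `Q` there is a `C` such that for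
every sufficiently large integer `N` and every radius `r` with `C log N / log log N ≤ r ≤ c log N` the
following holds. Let for every position `i` a set `F i` of `m ≥ 1` digits different from the digit of `N`
be given (all such digits, for example). Then all but at most a proportion `ε` of the numbers `n` which
arise from `N` by changing exactly `r` of the digits in base `b`, with the exception of the last one, such
that the new digits belong to the sets `F i`, are zero or odd, or have the following property: the number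
of representations `n = p - q` with primes `p` and `q`, where `q` lies in a window of length at least `ε N`
in `[0, N]` and in an admissible residue class to a modulus `k ≤ Q`, satisfies the asymptotic formula of
Hardy and Littlewood up to a relative error of at most `ε`, for all these windows and classes (so that `n`
is a difference of two primes, if `ε < 1`). -/
theorem result (b : ℕ) (hb : 2 ≤ b) : ∃ c : ℝ, 0 < c ∧ ∀ ε : ℝ, 0 < ε → ∀ Q : ℕ, ∃ (C : ℝ) (N₀ : ℕ), 0 < C ∧
    ∀ N : ℕ, N₀ ≤ N → ∀ r : ℕ, C * (Real.log N / Real.log (Real.log N)) ≤ r → (r : ℝ) ≤ c * Real.log N →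
    ∀ (m : ℕ) (F : ℕ → Finset ℕ), 1 ≤ m → (∀ i, F i ⊆ range b ∧ digit b i N ∉ F i ∧ (F i).card = m) →
      (exceptions ε Q b N F r : ℝ) ≤ ε * (sphere b N F r).card := by
  classical
  obtain ⟨R, hR, H⟩ := Pool.Agent.TH894.PR.final_H b hb
  have hbr : (2 : ℝ) ≤ b := by exact_mod_cast hb
  have hRr : (1 : ℝ) ≤ R := by exact_mod_cast hR
  have hlb : 0 < Real.log b := Real.log_pos (by linarith)
  refine ⟨1 / (R * b), by positivity, fun ε hε Q => ?_⟩
  obtain ⟨η, hη⟩ : ∃ η : ℝ, η = min ε 1 / (4 * b) := ⟨_, rfl⟩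
  have hm0 : 0 < min ε 1 := lt_min hε (by norm_num)
  have hη0 : 0 < η := by rw [hη]; positivity
  have hηε : η ≤ ε := by
    rw [hη, div_le_iff₀ (by positivity)]
    have h1 : min ε 1 ≤ ε := min_le_left _ _
    nlinarith
  obtain ⟨C, k₀, hC, h1⟩ := H η hη0 Q
  obtain ⟨N₀, hsz⟩ := Pool.Agent.TH894.CW.sizes b hb R hR C hC (k₀ + 1)
  obtain ⟨N₁, hho⟩ := holds_of b hb ε hε Q
  refine ⟨4 * C / Real.log b, N₀ + N₁, by positivity, fun N hN r hr hr' m F hm hF => ?_⟩
  obtain ⟨z1, z2, z3, z4, z5⟩ := hsz N (by omega) r hr hr'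
  have hho := hho N (by omega)
  rw [← hη] at hho
  unfold len at hho
  obtain ⟨K, hK⟩ : ∃ K, K = Nat.log b N + 1 := ⟨_, rfl⟩
  rw [← hK] at z1 z3 z4 z5 hho
  have hsph : sphere b N F r = Pool.Agent.TH894.SM.Sph b K N (Ico 1 K) F r := by
    unfold sphere Pool.Agent.TH894.SM.Sph len
    rw [← hK]
    ext n
    simp only [mem_filter]
    rfl
  have hVsub : Ico 1 K ⊆ range K := by
    intro i hi
    rw [mem_Ico] at hi
    rw [mem_range]
    omega
  unfold exceptions
  rw [hsph]
  refine Pool.Agent.TH894.SM.sphere_avg b K N hb z3 (Ico 1 K) hVsub F m hm hF r ε _ (filter_subset _ _) ?_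
  intro f hf
  refine (h1 K (by omega) N z3 f hf r z4 z5 _ (filter_subset _ _) ?_).trans ?_
  · intro T hT
    rw [mem_filter, mem_filter] at hT
    obtain ⟨_, _, h4, h5, h6⟩ := hT
    exact ⟨h4, h5, fun h7 => h6 (hho _ h7)⟩
  · rw [card_powersetCard, Nat.card_Ico]
    exact mul_le_mul_of_nonneg_right hηε (Nat.cast_nonneg _)

end Pool.Agent.Results.MP_70e905_nt.HammingSpheres
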