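import Pool.Agent.TH935.DF4

/-!
# Even numbers close to almost all members of thin families are differences of two primes

Definition used from `Pool.Agent.H560R3.GB`: `sing n`: the singular series
`2 C₂ ∏_{p ∣ n, p > 2} (p - 1) / (p - 2)`, where `C₂ = ∏_{p > 2} (1 - 1 / (p - 1) ^ 2)` is the twin prime
constant.
-/

set_option autoImplicit false

namespace Pool.Agent.Results.MP_70e905_nt.ThinFamilies

open Finset Pool.Agent.H560R3.GB

/-- The number of primes `q` with `y₁ < q ≤ y₂` and `q ≡ r (mod k)` for which `q + n` is a prime, that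
is, the number of representations `n = p - q` with primes `p` and `q`, where `q` is restricted to
`(y₁, y₂]` and to the class `r` modulo `k`. -/
noncomputable def diffs (n k r y₁ y₂ : ℕ) : ℕ :=
  Nat.card {q : ℕ // q.Prime ∧ (q + n).Prime ∧ y₁ < q ∧ q ≤ y₂ ∧ q ≡ r [MOD k]}

/-- The number of classes `α` modulo `k` for which `α` and `α + n` are both prime to `k`. -/
def classes (k n : ℕ) : ℕ := ((range k).filter (fun α => Nat.Coprime α k ∧ Nat.Coprime (α + n) k)).card

/-- The predicted number of representations (for windows near `N`). -/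
noncomputable def pred (N n k y₁ y₂ : ℕ) : ℝ :=
  sing n * ((y₂ : ℝ) - y₁) / (classes k n * Real.log N ^ 2)

/-- For all moduli `1 ≤ k ≤ log ^ B N`, all classes `r` with `(r, k) = (r + n, k) = 1`, and all windows
`y₁ < q ≤ y₂` with `y₂ ≤ W N` and `y₂ - y₁ ≥ N / log ^ A N`, the number of representations of `n` as a
difference `p - q` of primes, `q` in the window and in the class, agrees with its prediction up to a
relative error of at most `ε`. -/
def Holds (ε : ℝ) (A B W N n : ℕ) : Prop :=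
  ∀ k r : ℕ, 1 ≤ k → (k : ℝ) ≤ Real.log N ^ B → Nat.Coprime r k → Nat.Coprime (r + n) k →
    ∀ y₁ y₂ : ℕ, y₁ < y₂ → y₂ ≤ W * N → (N : ℝ) / Real.log N ^ A ≤ (y₂ : ℝ) - y₁ →
      |(diffs n k r y₁ y₂ : ℝ) - pred N n k y₁ y₂| ≤ ε * pred N n k y₁ y₂

/-- The additive energy of order `h` of a finite family of integers `v i`: the number of solutions of
`v (a 1) + ... + v (a h) = v (b 1) + ... + v (b h)`. -/
noncomputable def energy (h : ℕ) {ι : Type} [Fintype ι] (v : ι → ℤ) : ℕ :=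
  Nat.card {q : (Fin h → ι) × (Fin h → ι) // ∑ j, v (q.1 j) = ∑ j, v (q.2 j)}

/-- The number of representations of `t` as `v (a 1) + ... + v (a h)`. -/
noncomputable def reps (h : ℕ) {ι : Type} [Fintype ι] (v : ι → ℤ) (t : ℤ) : ℕ :=
  Nat.card {a : Fin h → ι // ∑ j, v (a j) = t}

open Classical in
/-- The number of the members `v i` of the family for which there is an even natural number `n > 0` with
`|n - v i| ≤ log ^ A N` for which `Holds` fails. -/
noncomputable def exceptions (ε : ℝ) (A B W N : ℕ) {ι : Type} [Fintype ι] (v : ι → ℤ) : ℕ :=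
  (univ.filter (fun i => ∃ n : ℕ, 0 < n ∧ Even n ∧ (|(n : ℤ) - v i| : ℤ) ≤ Real.log N ^ A ∧
    ¬ Holds ε A B W N n)).card

open Pool.Agent.TH935.DF in
lemma diffs_eq (n k r y₁ y₂ : ℕ) : diffs n k r y₁ y₂ = cc k r n y₁ y₂ := by
  classical
  unfold diffs cc
  have e : Nat.card {q : ℕ // q.Prime ∧ (q + n).Prime ∧ y₁ < q ∧ q ≤ y₂ ∧ q ≡ r [MOD k]} =
      Nat.card {q : ℕ // q ∈ (Ioc y₁ y₂).filter (fun p : ℕ => p.Prime ∧ (p + n).Prime ∧ p ≡ r [MOD k])} := by
    apply Nat.card_congr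
    apply Equiv.subtypeEquivRight
    intro q
    rw [mem_filter, mem_Ioc]
    tauto
  rw [e, Nat.card_eq_fintype_card, Fintype.card_coe]

lemma holds_of (ε : ℝ) (A B W N n : ℕ) (h : Pool.Agent.TH935.DF.HC ε A B W N n) : Holds ε A B W N n := by
  intro k r hk hkL hr hrn y₁ y₂ h12 hy2 hΔ
  rw [diffs_eq]
  exact h k r hk hkL hr hrn y₁ y₂ h12 hy2 hΔ

/-- a single shift of the family -/
theorem single (h A B C W U : ℕ) (ε : ℝ) (hε : 0 < ε) :
    ∃ N₀ : ℕ, ∀ N : ℕ, N₀ ≤ N → ∀ (ι : Type) [Fintype ι] (v : ι → ℤ),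
      (∀ i, |v i| ≤ W * N) →
      (energy h v : ℝ) * N ≤ Real.log N ^ C * (Fintype.card ι : ℝ) ^ (2 * h) →
      ∀ S : Finset ι, (∀ i ∈ S, 0 < v i ∧ Even (v i) ∧ ¬ Holds ε A B W N (v i).toNat) →
      (S.card : ℝ) ≤ Fintype.card ι / Real.log N ^ U := by
  classical
  obtain ⟨N₀, h0⟩ := Pool.Agent.TH935.LF.transferZ h W C U
    (fun N c => 0 < c → Even c → Holds ε A B W N c.toNat) (by
    intro C U
    obtain ⟨N₀, h1⟩ := Pool.Agent.TH935.DF.fam_c h A B C W U (min ε (1 / 2)) (lt_min hε (by norm_num)) (min_le_right _ _)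
    refine ⟨N₀, fun N hN x s hs hE S hSx hS => h1 N hN x s (fun m hm => (hs m hm).1) hE S hSx fun m hm => ?_⟩
    have h2 := hS m hm
    push Not at h2
    obtain ⟨h3, h4, h5⟩ := h2
    refine ⟨h3, h4, fun hG => h5 (holds_of _ _ _ _ _ _ ?_)⟩
    intro q a hq hqL ha hah y₁ y₂ h12 hy2 hΔ
    refine (hG q a hq hqL ha hah y₁ y₂ h12 hy2 hΔ).trans ?_
    apply mul_le_mul_of_nonneg_right (min_le_left _ _)
    have h3 : (0 : ℝ) ≤ (y₂ : ℝ) - y₁ := by
      have : (y₁ : ℝ) ≤ y₂ := by exact_mod_cast h12.le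
      linarith
    have h4 : 0 ≤ sing (s m).toNat := by
      have := Pool.Agent.W93.GB.one_le_sing (s m).toNat
      linarith
    positivity)
  refine ⟨N₀, fun N hN ι _ v hv hE S hS => h0 N hN ι v hv hE S ?_⟩
  intro i hi
  obtain ⟨h1, h2, h3⟩ := hS i hi
  exact ⟨h1.ne', fun h4 => h3 (h4 h1 h2)⟩

theorem first (h A B C W U : ℕ) (ε : ℝ) (hε : 0 < ε) :
    ∃ N₀ : ℕ, ∀ N : ℕ, N₀ ≤ N → ∀ (ι : Type) [Fintype ι] (v : ι → ℤ),
      (∀ i, |v i| ≤ W * N) →
      (energy h v : ℝ) * N ≤ Real.log N ^ C * (Fintype.card ι : ℝ) ^ (2 * h) →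
      (exceptions ε A B W N v : ℝ) ≤ Fintype.card ι / Real.log N ^ U := by
  classical
  obtain ⟨N₀, h0⟩ := single h A B C (W + 1) (U + A + 1) ε hε
  obtain ⟨N₁, h1⟩ := Pool.Agent.H373R2.T7.ev_L' 3
  obtain ⟨N₂, h2⟩ := Pool.Agent.H373R2.T7.ev_log' A 1
  refine ⟨N₀ + N₁ + N₂ + 1, fun N hN ι _ v hv hE => ?_⟩
  have c0 := h0 N (by omega) ι
  have c1 := h1 N (by omega)
  have c2 := h2 N (by omega)
  obtain ⟨L, hL⟩ : ∃ L, L = Real.log (N : ℝ) := ⟨_, rfl⟩
  unfold exceptions
  rw [← hL] at c0 c1 c2 hE ⊢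
  rw [one_mul] at c2
  have hL1 : 1 ≤ L := by linarith
  have hL0 : 0 < L := by linarith
  have hN1 : (1 : ℝ) ≤ N := by exact_mod_cast (by omega : 1 ≤ N)
  have hLN : L ^ A ≤ N := by
    refine c2.trans ?_
    rw [Real.sqrt_le_left (by linarith)]
    nlinarith
  obtain ⟨R, hR⟩ : ∃ R : ℕ, R = ⌊L ^ A⌋₊ := ⟨_, rfl⟩
  have hRL : (R : ℝ) ≤ L ^ A := by rw [hR]; exact Nat.floor_le (by positivity)
  have hRN : R ≤ N := by exact_mod_cast hRL.trans hLN
  have hι0 : (0 : ℝ) ≤ Fintype.card ι := Nat.cast_nonneg _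
  obtain ⟨F, hF⟩ : ∃ F : ℤ → Finset ι, F = fun δ => univ.filter (fun i => 0 < v i + δ ∧ Even (v i + δ) ∧
    ¬ Holds ε A B (W + 1) N (v i + δ).toNat) := ⟨_, rfl⟩
  have hsub : univ.filter (fun i => ∃ n : ℕ, 0 < n ∧ Even n ∧ ((|(n : ℤ) - v i| : ℤ) : ℝ) ≤ L ^ A ∧ ¬ Holds ε A B W N n) ⊆
      (Icc (-(R : ℤ)) R).biUnion F := by
    intro i hi
    rw [mem_filter] at hi
    obtain ⟨_, n, hn0, hn2, hnL, hn⟩ := hi
    rw [mem_biUnion]
    refine ⟨(n : ℤ) - v i, ?_, ?_⟩
    · rw [mem_Icc, ← abs_le]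
      have h5 : ((((n : ℤ) - v i).natAbs : ℕ) : ℝ) ≤ L ^ A := by
        refine le_trans (le_of_eq ?_) hnL
        exact Nat.cast_natAbs _
      have h6 : ((n : ℤ) - v i).natAbs ≤ R := by rw [hR]; exact Nat.le_floor h5
      rw [← Int.natCast_natAbs]
      exact_mod_cast h6
    · rw [hF]
      simp only
      rw [mem_filter]
      have e : v i + ((n : ℤ) - v i) = n := by ring
      rw [e, Int.toNat_natCast]
      refine ⟨mem_univ _, by exact_mod_cast hn0, by exact_mod_cast hn2, fun hG => hn ?_⟩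
      intro k r hk hkL hr hrn y₁ y₂ h12 hy2 hΔ
      exact hG k r hk hkL hr hrn y₁ y₂ h12 (hy2.trans (Nat.mul_le_mul_right _ (by omega))) hΔ
  have hone : ∀ δ ∈ Icc (-(R : ℤ)) R, ((F δ).card : ℝ) ≤ Fintype.card ι / L ^ (U + A + 1) := by
    intro δ hδ
    rw [mem_Icc, ← abs_le] at hδ
    apply c0 (fun i => v i + δ)
    · intro i
      have h5 := hv i
      have h6 : (R : ℤ) ≤ N := by exact_mod_cast hRN
      refine (abs_add_le _ _).trans ?_
      push_cast
      linarith
    · have e : energy h (fun i => v i + δ) = energy h v := by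
        unfold energy
        apply Nat.card_congr
        apply Equiv.subtypeEquivRight
        intro q
        rw [sum_add_distrib, sum_add_distrib, add_left_inj]
      rw [e]
      exact hE
    · intro i hi
      rw [hF] at hi
      simp only at hi
      rw [mem_filter] at hi
      exact hi.2
  calc ((univ.filter (fun i => ∃ n : ℕ, 0 < n ∧ Even n ∧ ((|(n : ℤ) - v i| : ℤ) : ℝ) ≤ L ^ A ∧ ¬ Holds ε A B W N n)).card : ℝ)
      ≤ (((Icc (-(R : ℤ)) R).biUnion F).card : ℝ) := by exact_mod_cast card_le_card hsub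
    _ ≤ ((∑ δ ∈ Icc (-(R : ℤ)) R, (F δ).card : ℕ) : ℝ) := by exact_mod_cast card_biUnion_le
    _ = ∑ δ ∈ Icc (-(R : ℤ)) R, ((F δ).card : ℝ) := by push_cast; rfl
    _ ≤ ∑ _δ ∈ Icc (-(R : ℤ)) R, (Fintype.card ι : ℝ) / L ^ (U + A + 1) := sum_le_sum hone
    _ = (2 * R + 1) * (Fintype.card ι / L ^ (U + A + 1)) := by
        rw [sum_const, Int.card_Icc, nsmul_eq_mul]
        congr 1
        have : ((R : ℤ) + 1 - -(R : ℤ)).toNat = 2 * R + 1 := by omega
        rw [this]
        push_cast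
        rfl
    _ ≤ L ^ (A + 1) * (Fintype.card ι / L ^ (U + A + 1)) := by
        apply mul_le_mul_of_nonneg_right _ (by positivity)
        have h6 : 1 ≤ L ^ A := one_le_pow₀ hL1
        rw [pow_succ]
        nlinarith
    _ = Fintype.card ι / L ^ U := by
        rw [show U + A + 1 = U + (A + 1) by ring, pow_add L U (A + 1)]
        field_simp

/-- Let `h`, `A`, `B`, `C`, `U`, `W` and `ε > 0` be fixed, and let `N` be large. Let `v i`, `i ∈ ι`, be an
arbitrary finite family of integers with `|v i| ≤ W N`.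

* Suppose that the additive energy of order `h` of the family is at most `log ^ C N` times
  `(#ι) ^ (2 h) / N` (up to the power of the logarithm this is the least possible energy of a family with
  members in `[-N, N]`, and the family may have as few as `N ^ (1 / h)` members). Then for all members `v i`
  of the family, with at most `#ι / log ^ U N` exceptions, all positive even numbers `n` with
  `|n - v i| ≤ log ^ A N` are differences `p - q` of two primes, and more precisely: for every modulus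
  `k ≤ log ^ B N`, every class `r` with `(r, k) = (r + n, k) = 1` and every window `y₁ < q ≤ y₂` with
  `y₂ ≤ W N` and `y₂ - y₁ ≥ N / log ^ A N`, the number of the representations `n = p - q` with `q` in
  the window and `q ≡ r (mod k)` is as predicted up to a relative error of at most `ε`.
* In particular this holds if no integer has more than `log ^ C N` representations as a sum of `h` members
  of the family, and `(#ι) ^ h ≥ N / log ^ C N`. -/
theorem result (h A B C U W : ℕ) (ε : ℝ) (hε : 0 < ε) :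
    (∃ N₀ : ℕ, ∀ N : ℕ, N₀ ≤ N → ∀ (ι : Type) [Fintype ι] (v : ι → ℤ),
      (∀ i, |v i| ≤ W * N) →
      (energy h v : ℝ) * N ≤ Real.log N ^ C * (Fintype.card ι : ℝ) ^ (2 * h) →
      (exceptions ε A B W N v : ℝ) ≤ Fintype.card ι / Real.log N ^ U) ∧
    (∃ N₀ : ℕ, ∀ N : ℕ, N₀ ≤ N → ∀ (ι : Type) [Fintype ι] (v : ι → ℤ),
      (∀ i, |v i| ≤ W * N) →
      (∀ t, (reps h v t : ℝ) ≤ Real.log N ^ C) →
      (N : ℝ) ≤ Real.log N ^ C * (Fintype.card ι : ℝ) ^ h →
      (exceptions ε A B W N v : ℝ) ≤ Fintype.card ι / Real.log N ^ U) := by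
  refine ⟨first h A B C W U ε hε, ?_⟩
  obtain ⟨N₀, h0⟩ := first h A B (2 * C) W U ε hε
  obtain ⟨N₁, h1⟩ := Pool.Agent.H373R2.T7.ev_L' 1
  refine ⟨N₀ + N₁, fun N hN ι _ v hv hJ hx => ?_⟩
  apply h0 N (by omega) ι v hv
  have hL := h1 N (by omega)
  have hL0 : 0 ≤ Real.log N := by linarith
  have h2 : (energy h v : ℝ) ≤ (Fintype.card ι : ℝ) ^ h * Real.log N ^ C :=
    Pool.Agent.TH935.GF.En_le h v _ hJ
  calc (energy h v : ℝ) * N ≤ ((Fintype.card ι : ℝ) ^ h * Real.log N ^ C) * (Real.log N ^ C * (Fintype.card ι : ℝ) ^ h) :=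
        mul_le_mul h2 hx (Nat.cast_nonneg _) (by positivity)
    _ = Real.log N ^ (2 * C) * (Fintype.card ι : ℝ) ^ (2 * h) := by ring

end Pool.Agent.Results.MP_70e905_nt.ThinFamilies
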